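import Pool.Agent.H176R2.R5.XF

/-!
# X-replacement when the result has a `4`-core of maximum degree at most five
-/

set_option autoImplicit false

namespace Pool.Agent.Results.MP_5e72fd_co.DegreeFive

open H176R2.R5

/-- Let `G` be generically independent in 3-space with disjoint edges `ab`, `cd` and a fifth vertex
`e`.  If every induced subgraph of minimum degree at least four of the X-replacement `G'` has maximum
degree at most five (for example, if `G'` has maximum degree at most five), then `G'` is generically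
independent in 3-space. -/
theorem result :
    ∀ (n : ℕ) (G : SimpleGraph (Fin n)) (a b c d e : Fin n),
      [a, b, c, d, e].Nodup → G.Adj a b → G.Adj c d →
      (∃ p : Fin n → Fin 3 → ℝ, LinearIndependent ℝ
        (fun x : {q : Fin n × Fin n // q.1 < q.2 ∧ G.Adj q.1 q.2} =>
          fun k : Fin n =>
            if k = x.1.1 then p x.1.1 - p x.1.2
            else if k = x.1.2 then p x.1.2 - p x.1.1
            else (0 : Fin 3 → ℝ))) →
      CoreLeFive (SimpleGraph.fromRel (fun x y => (x, y) ∈ XR.xEdges G a b c d e)) →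
      (∃ p : Fin (n + 1) → Fin 3 → ℝ, LinearIndependent ℝ
        (fun x : XR.xEdges G a b c d e =>
          fun k : Fin (n + 1) =>
            if k = x.1.1 then p x.1.1 - p x.1.2
            else if k = x.1.2 then p x.1.2 - p x.1.1
            else (0 : Fin 3 → ℝ))) := by
  intro n G a b c d e hnd hab hcd ⟨p, hp⟩ hc
  have h1 : Ind p (OR.gr {q : Fin n × Fin n | q.1 < q.2 ∧ G.Adj q.1 q.2}) := by
    refine (OR.ind_iff (fun e he => he.1) p _ ?_).1 hp
    intro e v k
    split_ifs <;> rfl
  have h2 : OR.gr {q : Fin n × Fin n | q.1 < q.2 ∧ G.Adj q.1 q.2} = G := by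
    ext x y
    constructor
    · rintro ⟨-, ⟨-, h⟩ | ⟨-, h⟩⟩
      · exact h
      · exact h.symm
    · intro h
      refine ⟨h.ne, ?_⟩
      rcases lt_or_gt_of_ne h.ne with h3 | h3
      · exact Or.inl ⟨h3, h⟩
      · exact Or.inr ⟨h3, h.symm⟩
  rw [h2] at h1
  have h3 := XR.sparse_xEdges hnd hab hcd (XR.sparse_of_ind h1)
  obtain ⟨q, hq⟩ := OR.exists_of_sparse (fun e he => he.1) hc h3
  refine ⟨q, (OR.ind_iff (fun e he => he.1) q _ ?_).2 hq⟩
  intro e v k
  split_ifs <;> rfl

end Pool.Agent.Results.MP_5e72fd_co.DegreeFive
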